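import Pool.Agent.MWGR.StmtsF

/-!
# Row JKA of block MWGR: the edge `Ka` is join prime
-/

namespace Pool.Agent.MWGR.H69

open Pool.Agent.Helper14_MV Pool.Agent.Helper2_MV Pool.Agent.MVO Pool.Agent.MWL Pool.Agent.MWS
  Pool.Agent.MWH Pool.Agent.MWA

/-- the blocks of the left side -/
def kaB0 : ℕ → List ℕ := fun j => [[0, 1], [0], [1]].getD j []

/-- the blocks of the right side -/
def kaB1 : ℕ → List ℕ := fun j => [[1, 0], [0], [1]].getD j []

/-- the invariant set -/
def kaA (B : ℕ → List ℕ) : Prop :=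
  ∃ r q, 1 ≤ r ∧ 1 ≤ q ∧ B 0 = [0, 1] ∧ B 1 = X r ∧ B 2 = Y q

theorem kaOk0 : OkB 2 kaB0 := by
  constructor
  · intro j hj c hc
    interval_cases j <;> simp [kaB0] at hc <;> unfold NS <;> omega
  · intro j hj c hc
    have h01 : c = 0 ∨ c = 1 := by
      interval_cases j <;> simp [kaB0] at hc <;> omega
    rcases h01 with rfl | rfl <;> simp [deg, Finset.sum_range_succ, kaB0]

theorem kaOk1 : OkB 2 kaB1 := by
  constructor
  · intro j hj c hc
    interval_cases j <;> simp [kaB1] at hc <;> unfold NS <;> omega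
  · intro j hj c hc
    have h01 : c = 0 ∨ c = 1 := by
      interval_cases j <;> simp [kaB1] at hc <;> omega
    rcases h01 with rfl | rfl <;> simp [deg, Finset.sum_range_succ, kaB1]

theorem jka (jpig : JpigStmt) (bgb : BgbStmt) (mnb : MnbStmt) (stw : StwStmt) (frm : FrmStmt)
    (eal : EalStmt) (dal : DalStmt) (ntk : NtkStmt) : JkaStmt := by
  intro n β h
  have hbas := (bgb n β h).1
  have key : JPp β (asm 2 kaB0, asm 2 kaB1) := by
    refine jpig β hbas.cap 2 kaB0 kaB1 kaA kaOk0 kaOk1 ⟨1, 1, le_rfl, le_rfl, rfl, rfl, rfl⟩ ?_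
      ?_ ?_
    · rintro ⟨r, q, _, _, h0, _, _⟩
      have : ([1, 0] : List ℕ) = [0, 1] := h0
      simp at this
    · rintro B B' hBB ⟨r, q, hr, hq, h0, h1, h2⟩
      exact ⟨r, q, hr, hq, by rw [← hBB 0 (by omega)]; exact h0,
        by rw [← hBB 1 (by omega)]; exact h1, by rw [← hBB 2 (by omega)]; exact h2⟩
    · rintro θ hle hnc hne B B' hB hB' _ hS' hR ⟨r, q, hr, hq, h0, h1, h2⟩
      have hg : BG n (RR θ) := (mnb n β θ hle).1 h
      have hD : ¬ Has n (FC.ofFIC θ) (Bit.D 0) := fun hd => hne (dal n θ hg hd).2.2.1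
      have hE : ¬ Has n (FC.ofFIC θ) Bit.E := fun he => hne (eal n θ hg he).2.2.1
      have hl01 : ∀ j ≤ 2, ∀ c ∈ B' j, c = 0 ∨ c = 1 := by
        intro j hj c hc
        obtain ⟨i, hi, hci⟩ := hS' c ⟨j, hj, hc⟩
        interval_cases i <;> simp [kaB0] at hci <;> omega
      -- the letter `0`
      have a0 : ty B 0 0 = 1 := by unfold ty; rw [h0]; simp
      have a1 : ty B 0 1 = r := by unfold ty; rw [h1]; simp
      have a2 : ty B 0 2 = 0 := by unfold ty; rw [h2]; simp [List.count_replicate]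
      have b0 : ty B 1 0 = 1 := by unfold ty; rw [h0]; simp
      have b1 : ty B 1 1 = 0 := by unfold ty; rw [h1]; simp [List.count_replicate]
      have b2 : ty B 1 2 = q := by unfold ty; rw [h2]; simp
      obtain ⟨_, s0⟩ := stw n β θ hbas hle hnc hD hE 2 B B' hB hB' hR 0 (by unfold NS; omega)
        ⟨0, by omega, by rw [h0]; simp⟩
      obtain ⟨d1, s1⟩ := stw n β θ hbas hle hnc hD hE 2 B B' hB hB' hR 1 (by unfold NS; omega)
        ⟨0, by omega, by rw [h0]; simp⟩
      have c00 : ty B' 0 0 = 1 := ((s0 0 (by omega)).1 (fun p hp => by omega)).1.1 a0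
      have c01' := (s0 1 (by omega)).2.1 (fun q' hq' hq2 => by
        have : q' = 2 := by omega
        subst this
        exact a2)
      have c01 : ty B' 0 1 ≠ 0 := by
        intro hc
        have := c01'.1.2 hc
        omega
      have c02 : ty B' 0 2 = 0 := c01'.2 2 (by omega) le_rfl
      have c10 : ty B' 1 0 = 1 := ((s1 0 (by omega)).1 (fun p hp => by omega)).1.1 b0
      have c11 : ty B' 1 1 = 0 :=
        ((s1 1 (by omega)).2.2.1 ⟨0, by omega, b0, fun l hl hl0 => by omega⟩).1 b1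
      have c12 : 1 ≤ ty B' 1 2 := by
        have : deg 2 (ty B' 1) = ty B' 1 0 + ty B' 1 1 + ty B' 1 2 := by
          simp [deg, Finset.sum_range_succ]
        omega
      unfold ty at c00 c01 c02 c10 c11 c12
      obtain ⟨s, t, e0, est⟩ := (frm.1 (B' 0) (hl01 0 (by omega))).1 c10
      have e1 := (frm.1 (B' 1) (hl01 1 (by omega))).2.1 c11
      have e2 := (frm.1 (B' 2) (hl01 2 (by omega))).2.2 c02
      have hr' : 1 ≤ (B' 1).count 0 := Nat.one_le_iff_ne_zero.2 c01
      rw [c00] at est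
      have hst : (s = 1 ∧ t = 0) ∨ (s = 0 ∧ t = 1) := by omega
      rcases hst with ⟨rfl, rfl⟩ | ⟨rfl, rfl⟩
      · exact ⟨_, _, hr', c12, by rw [e0]; rfl, e1, e2⟩
      · exfalso
        apply hne
        refine ntk n θ hg r ((B' 1).count 0) q ((B' 2).count 1) hr hr' hq c12 ?_
        have f1 : asm 2 B = 0 :: 1 :: 2 :: (X r ++ 3 :: Y q) := by
          show (B 0 ++ 2 :: B 1) ++ 3 :: B 2 = _
          rw [h0, h1, h2]
          simp
        have f2 : asm 2 B' = 1 :: 0 :: 2 :: (X ((B' 1).count 0) ++ 3 :: Y ((B' 2).count 1)) := by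
          show (B' 0 ++ 2 :: B' 1) ++ 3 :: B' 2 = _
          rw [← e1, ← e2, e0]
          simp
        rw [← f1, ← f2]
        exact hR
  exact key

end Pool.Agent.MWGR.H69
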